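import Pool.Agent.Q187.DC.B1c

/-!
# Distributional chaos of type 2½ on dendrites does not imply DC2 pairs

Both questions are answered in the negative by one example: there is a continuous self-map of a
dendrite which has an uncountable DC2½ set and no DC2 pair at all.

The dendrite is the cone over a closed invariant subset of the product of an odometer and
`{0,1}^ℕ` (`Pool/Agent/Q187/DC/Cone.lean`); the ends of the cone move as in the symbolic system and
all other points reach the root.
-/

set_option autoImplicit false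

open Set Filter Topology

namespace Pool.Agent.Results.MP_fd67f7_an.NoDC2Pairs

/-- A dendrite: a compact connected locally connected metric space which contains no subset
homeomorphic to a circle. -/
def IsDendrite (X : Type) [MetricSpace X] : Prop :=
  CompactSpace X ∧ ConnectedSpace X ∧ LocallyConnectedSpace X ∧
    ∀ s : Set X, IsEmpty (s ≃ₜ Circle)

/-- `(1/n) #{0 ≤ k ≤ n : d(f^k x, f^k y) < δ}`. -/
noncomputable def freq {X : Type} [MetricSpace X] (f : X → X) (x y : X) (δ : ℝ) (n : ℕ) : ℝ :=
  (((Finset.range (n + 1)).filter (fun k => dist (f^[k] x) (f^[k] y) < δ)).card : ℝ) / n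

/-- The lower distribution function `Φ_xy(δ)`, in the extended reals. -/
noncomputable def lower {X : Type} [MetricSpace X] (f : X → X) (x y : X) (δ : ℝ) : EReal :=
  liminf (fun n => ((freq f x y δ n : ℝ) : EReal)) atTop

/-- The upper distribution function `Φ*_xy(δ)`, in the extended reals. -/
noncomputable def upper {X : Type} [MetricSpace X] (f : X → X) (x y : X) (δ : ℝ) : EReal :=
  limsup (fun n => ((freq f x y δ n : ℝ) : EReal)) atTop

/-- DC2 pairs. -/
def IsDC2Pair {X : Type} [MetricSpace X] (f : X → X) (x y : X) : Prop :=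
  x ≠ y ∧ (∀ δ : ℝ, 0 < δ → δ ≤ Metric.diam (univ : Set X) → upper f x y δ = 1) ∧
    ∃ ε : ℝ, 0 < ε ∧ ε ≤ Metric.diam (univ : Set X) ∧ lower f x y ε < 1

/-- DC2½ pairs: `Φ_xy(0) < Φ*_xy(0)`. Both distribution functions are monotone in `δ`, so their
limits for `δ → 0+` are the infima over all `δ > 0`. -/
def IsDC2hPair {X : Type} [MetricSpace X] (f : X → X) (x y : X) : Prop :=
  x ≠ y ∧ (⨅ (δ : ℝ) (_ : 0 < δ), lower f x y δ) < ⨅ (δ : ℝ) (_ : 0 < δ), upper f x y δ

/-- There is a continuous self-map of a dendrite with an uncountable DC2½ set and without DC2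
pairs. -/
theorem result : ∃ (X : Type) (_ : MetricSpace X) (f : X → X), IsDendrite X ∧ Continuous f ∧
    (∃ D : Set X, ¬ D.Countable ∧ ∀ x ∈ D, ∀ y ∈ D, x ≠ y → IsDC2hPair f x y) ∧
    ∀ x y, ¬ IsDC2Pair f x y :=
  ⟨Pool.Agent.Q187.DC.Cone Pool.Agent.Q187.DC.S1, inferInstance,
    Pool.Agent.Q187.DC.fS Pool.Agent.Q187.DC.S1_inv, Pool.Agent.Q187.DC.main1⟩

end Pool.Agent.Results.MP_fd67f7_an.NoDC2Pairs
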